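import Mathlib

namespace Pool.Agent.H.MP_38c1f8_pr.P

open MeasureTheory ProbabilityTheory

abbrev Z := ℤ × ℤ
abbrev K := Bool × Bool
abbrev M := Bool ⊕ K

def step (a : Z) : M → Z
  | Sum.inl true => (a.1 + 1, a.2)
  | Sum.inl false => (a.1 - 1, a.2 - 1)
  | Sum.inr _ => (a.1, a.2 + 1)

def fin : Z → List M → Z
  | a, [] => a
  | a, m :: w => fin (step a m) w

def pos : Z → List M → List Z
  | _, [] => []
  | a, m :: w => a :: pos (step a m) w

def marks : Z → List M → List (Z × K)
  | _, [] => []
  | a, Sum.inl b :: w => marks (step a (Sum.inl b)) w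
  | a, Sum.inr k :: w => (a, k) :: marks (step a (Sum.inr k)) w

def alive (b : Z × K → Prop) : ℕ → Z → Prop
  | 0, _ => True
  | n + 1, z => (∀ k, ¬ b (z, k)) ∧ (alive b n (z.1 + 1, z.2) ∨ alive b n (z.1 + 1, z.2 + 1))

theorem fin_append (a : Z) (u w : List M) : fin a (u ++ w) = fin (fin a u) w := by
  induction u generalizing a with
  | nil => rfl
  | cons m u ih => simp [fin, ih]

theorem marks_append (a : Z) (u w : List M) :
    marks a (u ++ w) = marks a u ++ marks (fin a u) w := by
  induction u generalizing a with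
  | nil => rfl
  | cons m u ih => cases m <;> simp [fin, marks, ih]

theorem dead (b : Z × K → Prop) : ∀ n z, ¬ alive b n z →
    ∃ w, fin z w = (z.1, z.2 + 1) ∧ ∀ v ∈ marks z w, b v := by
  intro n
  induction n with
  | zero => intro z h; exact absurd trivial h
  | succ n ih =>
    intro z h
    by_cases h1 : ∀ k, ¬ b (z, k)
    · have h2 : ¬ alive b n (z.1 + 1, z.2) := fun e => h ⟨h1, Or.inl e⟩
      have h3 : ¬ alive b n (z.1 + 1, z.2 + 1) := fun e => h ⟨h1, Or.inr e⟩
      obtain ⟨u, u1, u2⟩ := ih _ h2
      obtain ⟨w, w1, w2⟩ := ih _ h3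
      refine ⟨Sum.inl true :: (u ++ (w ++ [Sum.inl false])), ?_, ?_⟩
      · simp [fin, step, fin_append, u1, w1]
      · intro v hv
        simp only [marks, step, marks_append, u1, List.mem_append, List.append_nil] at hv
        rcases hv with hv | hv
        · exact u2 v hv
        · exact w2 v hv
    · push Not at h1
      obtain ⟨k, hk⟩ := h1
      exact ⟨[Sum.inr k], by simp [fin, step], by simpa [marks] using hk⟩

theorem suff (a : Z) : ∀ (w : List M) (c : Z), a ∈ pos c w →
    ∃ u, fin a u = fin c w ∧ (∀ v ∈ marks a u, v ∈ marks c w) ∧ (pos a u).Sublist (pos c w) := by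
  intro w
  induction w with
  | nil => intro c h; simp [pos] at h
  | cons m w ih =>
    intro c h
    simp only [pos, List.mem_cons] at h
    rcases h with rfl | h
    · exact ⟨m :: w, rfl, fun _ h => h, List.Sublist.refl _⟩
    · obtain ⟨u, u1, u2, u3⟩ := ih _ h
      refine ⟨u, u1, fun v hv => ?_, u3.trans (List.sublist_cons_self _ _)⟩
      have := u2 v hv
      cases m <;> simp [marks, this]

theorem erase : ∀ (w : List M) (a : Z),
    ∃ u, fin a u = fin a w ∧ (∀ v ∈ marks a u, v ∈ marks a w) ∧ (pos a u).Nodup := by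
  intro w
  induction w with
  | nil => intro a; exact ⟨[], rfl, fun _ h => h, by simp [pos]⟩
  | cons m w ih =>
    intro a
    obtain ⟨u, u1, u2, u3⟩ := ih (step a m)
    by_cases h : a ∈ pos (step a m) u
    · obtain ⟨x, x1, x2, x3⟩ := suff a u _ h
      refine ⟨x, x1.trans u1, fun v hv => ?_, u3.sublist x3⟩
      have := u2 v (x2 v hv)
      cases m <;> simp [marks, this]
    · refine ⟨m :: u, u1, fun v hv => ?_, List.nodup_cons.mpr ⟨h, u3⟩⟩
      cases m with
      | inl b => exact u2 v hv
      | inr k =>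
        simp only [marks, List.mem_cons] at hv ⊢
        exact hv.imp id (u2 v)

theorem marks_sub : ∀ (w : List M) (a : Z), ((marks a w).map Prod.fst).Sublist (pos a w) := by
  intro w
  induction w with
  | nil => intro a; simp [marks, pos]
  | cons m w ih =>
    intro a
    cases m with
    | inl b => exact (ih _).trans (List.sublist_cons_self _ _)
    | inr k => simpa [marks, pos] using ih _

theorem marks_len : ∀ (w : List M) (a : Z), 3 * ((marks a w).length : ℤ) =
    w.length + 2 * ((fin a w).2 - a.2) - ((fin a w).1 - a.1) := by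
  intro w
  induction w with
  | nil => intro a; simp [marks, fin]
  | cons m w ih =>
    intro a
    have := ih (step a m)
    rcases m with (_ | _) | k <;> simp only [marks, fin, step, List.length_cons] at this ⊢ <;>
      push_cast <;> omega

noncomputable def p0 : unitInterval := ⟨1 / 1000, by norm_num, by norm_num⟩

theorem bound {V : Type*} (φ : Z × K → V) (hφ : Function.Injective φ) :
    Measure.infinitePi (fun _ : V => bernoulliMeasure true false p0)
      {c | ¬ ∀ n, alive (fun v => c (φ v) = true) n (0, 0)} ≤ 1 / 4 := by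
  classical
  set μ := Measure.infinitePi (fun _ : V => bernoulliMeasure true false p0)
  let E : List M → Set (V → Bool) := fun w =>
    {c | fin (0, 0) w = (0, 1) ∧ (pos (0, 0) w).Nodup ∧ ∀ v ∈ marks (0, 0) w, c (φ v) = true}
  have sub : {c : V → Bool | ¬ ∀ n, alive (fun v => c (φ v) = true) n (0, 0)} ⊆
      ⋃ n : ℕ, ⋃ f : Fin n → M, E (List.ofFn f) := by
    intro c hc
    simp only [Set.mem_ofPred_eq, not_forall] at hc
    obtain ⟨n, hn⟩ := hc
    obtain ⟨w, w1, w2⟩ := dead _ n _ hn
    obtain ⟨u, u1, u2, u3⟩ := erase w (0, 0)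
    simp only [Set.mem_iUnion]
    refine ⟨u.length, u.get, ?_⟩
    rw [List.ofFn_get]
    exact ⟨by rw [u1, w1]; simp, u3, fun v hv => w2 v (u2 v hv)⟩
  have hp : ((unitInterval.toNNReal p0 : NNReal) : ENNReal) = (1 / 10) ^ 3 := by
    have : unitInterval.toNNReal p0 = (1 / 10) ^ 3 := by
      apply NNReal.eq
      simp [p0]
      norm_num
    rw [this]
    simp [ENNReal.inv_pow]
  have hE : ∀ w, μ (E w) ≤ (1 / 10) ^ (w.length + 2) := by
    intro w
    by_cases h : fin (0, 0) w = (0, 1) ∧ (pos (0, 0) w).Nodup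
    · have nd : (marks (0, 0) w).Nodup := List.Nodup.of_map _ (h.2.sublist (marks_sub w _))
      have len := marks_len w (0, 0)
      rw [h.1] at len
      have len' : w.length + 2 = 3 * (marks (0, 0) w).length := by
        simp only at len
        omega
      have s2 : E w ⊆ Set.pi (((marks (0, 0) w).map φ).toFinset : Finset V) (fun _ => {true}) := by
        intro c hc v hv
        simp only [List.coe_toFinset, List.mem_map, Set.mem_ofPred_eq] at hv
        obtain ⟨x, hx, rfl⟩ := hv
        exact hc.2.2 x hx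
      refine (measure_mono s2).trans ?_
      rw [Measure.infinitePi_pi _ (fun _ _ => MeasurableSet.of_discrete), Finset.prod_const,
        List.toFinset_card_of_nodup (nd.map hφ), List.length_map,
        bernoulliMeasure_apply_of_mem_of_notMem _ MeasurableSet.of_discrete (by simp) (by simp),
        hp, len', pow_mul]
    · have : E w = ∅ := by
        ext c
        simp only [E, Set.mem_ofPred_eq, Set.mem_empty_iff_false, iff_false]
        exact fun e => h ⟨e.1, e.2.1⟩
      simp [this]
  have h10 : (6 : ENNReal) * (1 / 10) = ((3 / 5 : NNReal) : ENNReal) := by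
    have : ((3 / 5 : NNReal) : ENNReal) = ((6 * (1 / 10) : NNReal) : ENNReal) := by
      congr 1
      norm_num
    rw [this]
    simp
  calc μ _ ≤ μ (⋃ n : ℕ, ⋃ f : Fin n → M, E (List.ofFn f)) := measure_mono sub
    _ ≤ ∑' n : ℕ, μ (⋃ f : Fin n → M, E (List.ofFn f)) := measure_iUnion_le _
    _ ≤ ∑' n : ℕ, ((3 / 5 : NNReal) : ENNReal) ^ n * (1 / 10) ^ 2 := by
      apply ENNReal.tsum_le_tsum
      intro n
      refine (measure_iUnion_fintype_le _ _).trans ?_
      refine (Finset.sum_le_card_nsmul _ _ ((1 / 10) ^ (n + 2)) fun f _ => ?_).trans ?_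
      · simpa using hE (List.ofFn f)
      · rw [← h10]
        simp only [Finset.card_univ, Fintype.card_fun, Fintype.card_fin, Fintype.card_sum,
          Fintype.card_bool, Fintype.card_prod, nsmul_eq_mul, mul_pow, pow_add]
        push_cast
        rw [mul_assoc]
    _ ≤ 1 / 4 := by
      rw [ENNReal.tsum_mul_right, ENNReal.tsum_geometric]
      have e1 : (1 : ENNReal) - ((3 / 5 : NNReal) : ENNReal) = ((2 / 5 : NNReal) : ENNReal) := by
        rw [← ENNReal.coe_one, ← ENNReal.coe_sub]
        congr 1
        apply NNReal.eq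
        rw [NNReal.coe_sub (by rw [← NNReal.coe_le_coe]; norm_num)]
        norm_num
      have e2 : (1 / 10 : ENNReal) = ((1 / 10 : NNReal) : ENNReal) := by simp
      have e3 : (1 / 4 : ENNReal) = ((1 / 4 : NNReal) : ENNReal) := by simp
      rw [e1, e2, e3, ← ENNReal.coe_inv (by norm_num), ← ENNReal.coe_pow, ← ENNReal.coe_mul,
        ENNReal.coe_le_coe, ← NNReal.coe_le_coe]
      norm_num

theorem alive_mono (b : Z × K → Prop) : ∀ n z, alive b (n + 1) z → alive b n z := by
  intro n
  induction n with
  | zero => intro _ _; trivial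
  | succ n ih => intro z h; exact ⟨h.1, h.2.imp (ih _) (ih _)⟩

theorem alive_le (b : Z × K → Prop) (z : Z) {m n : ℕ} (h : m ≤ n) : alive b n z → alive b m z := by
  induction h with
  | refl => exact id
  | step _ ih => exact fun e => ih (alive_mono b _ _ e)

theorem forever (b : Z × K → Prop) (z : Z) : (∀ n, alive b n z) ↔ (∀ k, ¬ b (z, k)) ∧
    ((∀ n, alive b n (z.1 + 1, z.2)) ∨ ∀ n, alive b n (z.1 + 1, z.2 + 1)) := by
  constructor
  · intro h
    refine ⟨(h 1).1, ?_⟩
    by_contra hc
    push Not at hc
    obtain ⟨⟨m, hm⟩, n, hn⟩ := hc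
    rcases (h (max m n + 1)).2 with e | e
    · exact hm (alive_le b _ (le_max_left _ _) e)
    · exact hn (alive_le b _ (le_max_right _ _) e)
  · rintro ⟨h1, h2⟩ n
    cases n with
    | zero => trivial
    | succ n => exact ⟨h1, h2.imp (fun e => e n) (fun e => e n)⟩

end Pool.Agent.H.MP_38c1f8_pr.P
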