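import Mathlib
import Pool.Agent.H.MP_38c1f8_pr.P

namespace Pool.Agent.H.MP_38c1f8_pr.G

open Pool.Agent.H.MP_38c1f8_pr.P

abbrev V := Z × K

def rel (u v : V) : Prop :=
  (u.2.1 = false ∧ v.2.1 = true ∧ u.1 = v.1) ∨
  (u.2.1 = true ∧ v.2.1 = false ∧ u.2.2 = v.2.2 ∧ v.1.1 = u.1.1 + 1 ∧
    (v.1.2 = u.1.2 ∨ v.1.2 = u.1.2 + 1))

def G : SimpleGraph V where
  Adj u v := rel u v ∨ rel v u
  symm := ⟨fun _ _ h => h.symm⟩
  loopless := ⟨fun v h => by rcases h with h | h <;> rcases h with h | h <;> simp_all⟩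

theorem nbF (t x : ℤ) (r : Bool) : G.neighborSet ((t, x), (false, r)) =
    {((t, x), (true, false)), ((t, x), (true, true)), ((t - 1, x), (true, r)),
      ((t - 1, x - 1), (true, r))} := by
  ext ⟨⟨a, b⟩, c, d⟩
  cases c <;> cases d <;> cases r <;> simp [G, rel] <;> omega

theorem nbT (t x : ℤ) (r : Bool) : G.neighborSet ((t, x), (true, r)) =
    {((t, x), (false, false)), ((t, x), (false, true)), ((t + 1, x), (false, r)),
      ((t + 1, x + 1), (false, r))} := by
  ext ⟨⟨a, b⟩, c, d⟩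
  cases c <;> cases d <;> cases r <;> simp [G, rel] <;> omega

theorem card4 {α : Type*} {a b c d : α} (h1 : a ≠ b) (h2 : a ≠ c) (h3 : a ≠ d) (h4 : b ≠ c)
    (h5 : b ≠ d) (h6 : c ≠ d) : ({a, b, c, d} : Set α).ncard = 4 := by
  rw [Set.ncard_insert_of_notMem (by simp [*]), Set.ncard_insert_of_notMem (by simp [*]),
    Set.ncard_pair h6]

theorem reg (v : V) : (G.neighborSet v).ncard = 4 := by
  obtain ⟨⟨t, x⟩, c, r⟩ := v
  cases c
  · rw [nbF]; apply card4 <;> simp <;> omega
  · rw [nbT]; apply card4 <;> simp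

def W (u v : V) (n : ℕ) : Prop := ∃ p : G.Walk u v, p.length ≤ n

theorem W.refl (u : V) : W u u 0 := ⟨.nil, le_rfl⟩
theorem W.adj {u v : V} (h : G.Adj u v) : W u v 1 := ⟨.cons h .nil, le_rfl⟩
theorem W.symm {u v : V} {n : ℕ} (h : W u v n) : W v u n := by
  obtain ⟨p, hp⟩ := h
  exact ⟨p.reverse, by simpa using hp⟩
theorem W.trans {u v w : V} {m n : ℕ} (h : W u v m) (h' : W v w n) : W u w (m + n) := by
  obtain ⟨p, hp⟩ := h
  obtain ⟨q, hq⟩ := h'
  exact ⟨p.append q, by simp; omega⟩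
theorem W.mono {u v : V} {m n : ℕ} (h : W u v m) (h' : m ≤ n) : W u v n := by
  obtain ⟨p, hp⟩ := h
  exact ⟨p, hp.trans h'⟩

def b (t x : ℤ) : V := ((t, x), (true, false))

theorem Wb (v : V) : W v (b v.1.1 v.1.2) 2 := by
  obtain ⟨⟨t, x⟩, c, r⟩ := v
  cases c
  · exact (W.adj (by simp [G, rel, b])).mono (by norm_num)
  · exact (W.adj (v := ((t, x), (false, false))) (by simp [G, rel])).trans
      (W.adj (by simp [G, rel, b]))

theorem W1 (t x : ℤ) (n : ℕ) : W (b t x) (b (t + n) x) (2 * n) := by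
  induction n with
  | zero => simpa using W.refl _
  | succ n ih =>
    have h : W (b (t + n) x) (b (t + (n + 1 : ℕ)) x) 2 :=
      (W.adj (v := ((t + n + 1, x), (false, false))) (by simp [G, rel, b])).trans
        (W.adj (by simp [G, rel, b, add_assoc]))
    exact (ih.trans h).mono (by omega)

theorem W2 (t x : ℤ) (n : ℕ) : W (b t x) (b t (x + n)) (2 * n) := by
  induction n with
  | zero => simpa using W.refl _
  | succ n ih =>
    have h : W (b t (x + n)) (b t (x + (n + 1 : ℕ))) 2 :=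
      (W.adj (v := ((t + 1, x + n + 1), (false, false))) (by simp [G, rel, b])).trans
        (W.adj (by simp [G, rel, b, add_assoc]))
    exact (ih.trans h).mono (by omega)

theorem W1' (t s x : ℤ) : W (b t x) (b s x) (2 * (t - s).natAbs) := by
  rcases le_total t s with h | h
  · have := W1 t x (t - s).natAbs
    rwa [show t + ((t - s).natAbs : ℤ) = s by omega] at this
  · have := W1 s x (t - s).natAbs
    rw [show s + ((t - s).natAbs : ℤ) = t by omega] at this
    exact this.symm

theorem W2' (t x y : ℤ) : W (b t x) (b t y) (2 * (x - y).natAbs) := by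
  rcases le_total x y with h | h
  · have := W2 t x (x - y).natAbs
    rwa [show x + ((x - y).natAbs : ℤ) = y by omega] at this
  · have := W2 t y (x - y).natAbs
    rw [show y + ((x - y).natAbs : ℤ) = x by omega] at this
    exact this.symm

theorem Wall (u v : V) :
    W u v (2 + 2 * (u.1.1 - v.1.1).natAbs + 2 * (u.1.2 - v.1.2).natAbs + 2) :=
  (((Wb u).trans (W1' _ _ _)).trans (W2' _ _ _)).trans (Wb v).symm

theorem conn : G.Connected := by
  haveI : Nonempty V := ⟨b 0 0⟩
  exact ⟨fun u v => ⟨(Wall u v).choose⟩⟩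

theorem dist_up (u v : V) :
    G.dist u v ≤ 2 + 2 * (u.1.1 - v.1.1).natAbs + 2 * (u.1.2 - v.1.2).natAbs + 2 := by
  obtain ⟨p, hp⟩ := Wall u v
  exact (SimpleGraph.dist_le p).trans hp

theorem walk_low {u v : V} (p : G.Walk u v) :
    (u.1.1 - v.1.1).natAbs + (u.1.2 - v.1.2).natAbs ≤ 2 * p.length := by
  induction p with
  | nil => simp
  | @cons u w v h q ih =>
    simp only [SimpleGraph.Walk.length_cons]
    have : (u.1.1 - w.1.1).natAbs + (u.1.2 - w.1.2).natAbs ≤ 2 := by
      rcases h with h | h <;> rcases h with h | h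
      · rw [h.2.2]; simp
      · omega
      · rw [h.2.2]; simp
      · omega
    omega

theorem dist_low (u v : V) :
    (u.1.1 - v.1.1).natAbs + (u.1.2 - v.1.2).natAbs ≤ 2 * G.dist u v := by
  obtain ⟨p, hp⟩ := conn.exists_walk_length_eq_dist u v
  rw [← hp]
  exact walk_low p

def lev (v : V) : ℤ := 2 * v.1.1 + (if v.2.1 then 1 else 0)

theorem up2 (v : V) : ∃ a c, a ≠ c ∧ G.Adj v a ∧ G.Adj v c ∧ lev v < lev a ∧ lev v < lev c := by
  obtain ⟨⟨t, x⟩, c, r⟩ := v
  cases c
  · exact ⟨((t, x), (true, false)), ((t, x), (true, true)), by simp, by simp [G, rel],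
      by simp [G, rel], by simp [lev], by simp [lev]⟩
  · exact ⟨((t + 1, x), (false, r)), ((t + 1, x + 1), (false, r)), by simp, by simp [G, rel],
      by simp [G, rel], by simp [lev]; omega, by simp [lev]; omega⟩

def neg (v : V) : V := ((-v.1.1, -v.1.2), v.2)

theorem neg_inj : Function.Injective neg := by
  rintro ⟨⟨a, b⟩, c⟩ ⟨⟨d, e⟩, f⟩ h
  simp only [neg, Prod.mk.injEq, _root_.neg_inj] at h
  simp [h]

/-- cells on a bi-infinite healthy oriented path -/
def T (c : V → Bool) (z : Z) : Prop :=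
  (∀ n, alive (fun v => c v = true) n z) ∧ ∀ n, alive (fun v => c (neg v) = true) n (-z.1, -z.2)

theorem T_good {c : V → Bool} {v : V} (h : T c v.1) : c v ≠ true :=
  ((forever _ _).mp h.1).1 v.2

theorem T_succ {c : V → Bool} {t x : ℤ} (h : T c (t, x)) : T c (t + 1, x) ∨ T c (t + 1, x + 1) := by
  obtain ⟨h1, h2⟩ := h
  rcases ((forever _ _).mp h1).2 with e | e
  · refine Or.inl ⟨e, (forever _ _).mpr ⟨fun k => ?_, Or.inl ?_⟩⟩
    · simpa [neg] using ((forever _ _).mp e).1 k
    · simpa using h2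
  · refine Or.inr ⟨e, (forever _ _).mpr ⟨fun k => ?_, Or.inr ?_⟩⟩
    · simpa [neg] using ((forever _ _).mp e).1 k
    · simpa using h2

theorem T_pred {c : V → Bool} {t x : ℤ} (h : T c (t, x)) : T c (t - 1, x) ∨ T c (t - 1, x - 1) := by
  obtain ⟨h1, h2⟩ := h
  rcases ((forever _ _).mp h2).2 with e | e
  · refine Or.inl ⟨(forever _ _).mpr ⟨fun k => ?_, Or.inl ?_⟩, ?_⟩
    · have := ((forever _ _).mp e).1 k
      simpa [neg, sub_eq_neg_add] using this
    · simpa using h1
    · simpa [sub_eq_neg_add, add_comm] using e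
  · refine Or.inr ⟨(forever _ _).mpr ⟨fun k => ?_, Or.inr ?_⟩, ?_⟩
    · have := ((forever _ _).mp e).1 k
      simpa [neg, sub_eq_neg_add] using this
    · simpa using h1
    · simpa [sub_eq_neg_add, add_comm] using e

theorem T_one {c : V → Bool} (v : V) (h : T c v.1) :
    ∃ a, ∀ w, G.Adj v w → w = a ∨ T c w.1 := by
  obtain ⟨⟨t, x⟩, s, r⟩ := v
  cases s
  · rcases T_pred h with e | e
    · refine ⟨((t - 1, x - 1), (true, r)), fun w hw => ?_⟩
      have : w ∈ G.neighborSet _ := hw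
      rw [nbF] at this
      rcases this with rfl | rfl | rfl | rfl <;> simp_all
    · refine ⟨((t - 1, x), (true, r)), fun w hw => ?_⟩
      have : w ∈ G.neighborSet _ := hw
      rw [nbF] at this
      rcases this with rfl | rfl | rfl | rfl <;> simp_all
  · rcases T_succ h with e | e
    · refine ⟨((t + 1, x + 1), (false, r)), fun w hw => ?_⟩
      have : w ∈ G.neighborSet _ := hw
      rw [nbT] at this
      rcases this with rfl | rfl | rfl | rfl <;> simp_all
    · refine ⟨((t + 1, x), (false, r)), fun w hw => ?_⟩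
      have : w ∈ G.neighborSet _ := hw
      rw [nbT] at this
      rcases this with rfl | rfl | rfl | rfl <;> simp_all

end Pool.Agent.H.MP_38c1f8_pr.G
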